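import Pool.Agent.Q97.Weighted
import Pool.Agent.Q97.WeakNull
import Pool.Agent.Q97.Renorm

set_option autoImplicit false

/-!
# A strictly convex Banach space with a Daugavet point

The space is `ℝ × c₀` with the norm `N (t, z) = sup_n p_n (t, z) + ‖(2^{-k} z_k)_k‖_2`, where
`p_n (t, z) = |z_n| / 2 + |(t + z_n / 2) + i δ_n z_n / 2|` and `δ_n = 1 / (n + 1)`.  The vector
`(1, 0)` is a Daugavet point, and `N` is strictly convex.
-/

namespace Pool.Agent.Results.MP_7c844e_an.StrictlyConvexDaugavetPoint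

open Filter Topology Q97

/-- The point `x` of the unit sphere is a Daugavet point. -/
def IsDaugavetPoint {X : Type*} [NormedAddCommGroup X] [NormedSpace ℝ X] (x : X) : Prop :=
  ‖x‖ = 1 ∧ ∀ f : X →L[ℝ] ℝ, ‖f‖ = 1 → ∀ α : ℝ, 0 < α → ∀ ε : ℝ, 0 < ε →
    ∃ y : X, ‖y‖ ≤ 1 ∧ 1 - α < f y ∧ 2 - ε < ‖x - y‖

/-- The underlying space. -/
abbrev V := ℝ × C0

/-- The parameters `1 / (n + 1)`. -/
noncomputable def δ (n : ℕ) : ℝ := 1 / ((n : ℝ) + 1)

theorem δ_pos (n : ℕ) : 0 < δ n := by unfold δ; positivity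

theorem δ_le_one (n : ℕ) : δ n ≤ 1 := by
  unfold δ
  rw [div_le_one (by positivity)]
  have : (0 : ℝ) ≤ n := n.cast_nonneg
  linarith

/-- The two-dimensional part of the seminorm `p n`. -/
noncomputable def G (n : ℕ) : V →ₗ[ℝ] ℂ where
  toFun v := ⟨v.1 + v.2 n / 2, δ n * v.2 n / 2⟩
  map_add' v w := by
    apply Complex.ext
    · simp; ring
    · simp; ring
  map_smul' c v := by
    apply Complex.ext
    · simp; ring
    · simp; ring

theorem G_re (n : ℕ) (v : V) : (G n v).re = v.1 + v.2 n / 2 := rfl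
theorem G_im (n : ℕ) (v : V) : (G n v).im = δ n * v.2 n / 2 := rfl

/-- The seminorms. -/
noncomputable def p (n : ℕ) (v : V) : ℝ := |v.2 n| / 2 + ‖G n v‖

theorem p_add (n : ℕ) (v w : V) : p n (v + w) ≤ p n v + p n w := by
  unfold p
  have h1 : (v + w).2 n = v.2 n + w.2 n := rfl
  have h2 := abs_add_le (v.2 n) (w.2 n)
  have h3 := norm_add_le (G n v) (G n w)
  rw [map_add, h1]
  linarith

theorem p_smul (n : ℕ) (c : ℝ) (v : V) : p n (c • v) = ‖c‖ * p n v := by
  unfold p
  have h1 : (c • v).2 n = c * v.2 n := rfl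
  rw [h1, map_smul, norm_smul, abs_mul, Real.norm_eq_abs]
  ring

theorem abs_le_half (t z : ℝ) : |t| ≤ |z| / 2 + |t + z / 2| := by
  have := abs_sub (t + z / 2) (z / 2)
  rw [add_sub_cancel_right, abs_div, abs_two] at this
  linarith

theorem abs_le_half' (t z : ℝ) : |t + z| ≤ |z| / 2 + |t + z / 2| := by
  have := abs_add_le (t + z / 2) (z / 2)
  rw [abs_div, abs_two] at this
  have h : t + z / 2 + z / 2 = t + z := by ring
  rw [h] at this
  linarith

theorem half_le (t z R : ℝ) (h1 : |t| ≤ R) (h2 : |t + z| ≤ R) : |z| / 2 + |t + z / 2| ≤ R := by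
  rcases abs_cases z with h | h <;> rcases abs_cases (t + z / 2) with h' | h' <;>
    rcases abs_cases t with h'' | h'' <;> rcases abs_cases (t + z) with h''' | h''' <;> linarith

theorem abs_re_le_p (n : ℕ) (v : V) : |v.2 n| / 2 + |v.1 + v.2 n / 2| ≤ p n v := by
  unfold p
  have := Complex.abs_re_le_norm (G n v)
  rw [G_re] at this
  linarith

theorem abs_fst_le_p (n : ℕ) (v : V) : |v.1| ≤ p n v :=
  (abs_le_half _ _).trans (abs_re_le_p n v)

theorem abs_add_le_p (n : ℕ) (v : V) : |v.1 + v.2 n| ≤ p n v :=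
  (abs_le_half' _ _).trans (abs_re_le_p n v)

theorem p_le (n : ℕ) (v : V) : p n v ≤ |v.2 n| / 2 + |v.1 + v.2 n / 2| + δ n * |v.2 n| / 2 := by
  unfold p
  have := Complex.norm_le_abs_re_add_abs_im (G n v)
  rw [G_re, G_im, abs_div, abs_two, abs_mul, abs_of_pos (δ_pos n)] at this
  linarith

theorem abs_fst_lt_p {n : ℕ} {v : V} (h : v.2 n ≠ 0) : |v.1| < p n v := by
  refine lt_of_le_of_lt (abs_le_half v.1 (v.2 n)) ?_
  unfold p
  have : |(G n v).re| < ‖G n v‖ := by
    rw [Complex.abs_re_lt_norm, G_im]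
    have := (δ_pos n).ne'
    positivity
  rw [G_re] at this
  linarith

theorem p_le' (n : ℕ) (v : V) : p n v ≤ |v.1| + 2 * |v.2 n| := by
  have h1 := p_le n v
  have h2 := abs_add_le v.1 (v.2 n / 2)
  rw [abs_div, abs_two] at h2
  have h3 : δ n * |v.2 n| ≤ 1 * |v.2 n| := mul_le_mul_of_nonneg_right (δ_le_one n) (abs_nonneg _)
  have h4 := abs_nonneg (v.2 n)
  linarith

theorem norm_fst_le' (v : V) : |v.1| ≤ ‖v‖ := by
  have := norm_fst_le v
  rwa [Real.norm_eq_abs] at this

theorem p_le_norm (n : ℕ) (v : V) : p n v ≤ 3 * ‖v‖ := by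
  have h1 := p_le' n v
  have h2 := norm_fst_le' v
  have h3 := C0.abs_apply_le v.2 n
  have h4 := norm_snd_le v
  linarith

theorem norm_le_of_p (v : V) (b : ℝ) (h : ∀ n, p n v ≤ b) : ‖v‖ ≤ 2 * b := by
  have h0 : |v.1| ≤ b := (abs_fst_le_p 0 v).trans (h 0)
  have hb : 0 ≤ b := (abs_nonneg _).trans h0
  rw [Prod.norm_def]
  apply max_le
  · rw [Real.norm_eq_abs]; linarith
  · rw [C0.norm_le_iff (by positivity)]
    intro n
    have h1 := (abs_add_le_p n v).trans (h n)
    have h2 := abs_sub (v.1 + v.2 n) v.1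
    rw [add_sub_cancel_left] at h2
    linarith

/-- The first norm. -/
noncomputable def E0 : EqNorm ℝ V :=
  EqNorm.ofSup p p_add p_smul 3 p_le_norm 2 norm_le_of_p

theorem p_le_E0 (n : ℕ) (v : V) : p n v ≤ E0.N v := EqNorm.le_ofSup p _ _ _ _ _ _ n v

theorem E0_le {v : V} {b : ℝ} (h : ∀ n, p n v ≤ b) : E0.N v ≤ b := EqNorm.ofSup_le p _ _ _ _ _ _ h

/-- The norm of the example. -/
noncomputable def E : EqNorm ℝ V where
  N v := E0.N v + ‖wgt v.2‖
  add_le v w := by
    have h1 := E0.add_le v w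
    have h2 := norm_add_le (wgt v.2) (wgt w.2)
    have h3 : wgt (v + w).2 = wgt v.2 + wgt w.2 := map_add wgt v.2 w.2
    rw [h3]
    linarith
  smul c v := by
    have h3 : wgt (c • v).2 = c • wgt v.2 := map_smul wgt c v.2
    rw [h3, E0.smul, norm_smul]
    ring
  C := 2
  le v := by
    have h1 := E0.le v
    have h2 : E0.C = 2 := rfl
    rw [h2] at h1
    have h3 := norm_nonneg (wgt v.2)
    linarith
  D := 5
  ge v := by
    have h1 := E0.ge v
    have h2 : E0.D = 3 := rfl
    rw [h2] at h1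
    have h3 := norm_wgt_le v.2
    have h4 := norm_snd_le v
    linarith

theorem E_N (v : V) : E.N v = E0.N v + ‖wgt v.2‖ := rfl

theorem tendsto_p (v : V) : Tendsto (fun n => p n v) atTop (𝓝 |v.1|) := by
  have h1 : Tendsto (fun n => |v.1| + 2 * |v.2 n|) atTop (𝓝 (|v.1| + 2 * |(0 : ℝ)|)) :=
    ((C0.tendsto_zero v.2).abs.const_mul 2).const_add _
  rw [abs_zero, mul_zero, add_zero] at h1
  exact tendsto_of_tendsto_of_tendsto_of_le_of_le tendsto_const_nhds h1
    (fun n => abs_fst_le_p n v) (fun n => p_le' n v)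

/-- The supremum is attained, or it equals the limit. -/
theorem attained (v : V) : (∃ n, p n v = E0.N v) ∨ E0.N v = |v.1| := by
  by_contra hcon
  push Not at hcon
  obtain ⟨h1, h2⟩ := hcon
  have h3 : |v.1| < E0.N v := lt_of_le_of_ne ((abs_fst_le_p 0 v).trans (p_le_E0 0 v)) (Ne.symm h2)
  obtain ⟨c, hc1, hc2⟩ := exists_between h3
  obtain ⟨M, hM⟩ := eventually_atTop.mp ((tendsto_order.mp (tendsto_p v)).2 c hc1)
  have h4 : ∃ b, b < E0.N v ∧ ∀ n ∈ Finset.range M, p n v ≤ b := by
    induction M with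
    | zero => exact ⟨c, hc2, by simp⟩
    | succ k ih =>
      clear ih
      have : ∀ k : ℕ, ∃ b, b < E0.N v ∧ ∀ n ∈ Finset.range k, p n v ≤ b := by
        intro k
        induction k with
        | zero => exact ⟨c, hc2, by simp⟩
        | succ k ih =>
          obtain ⟨b, hb, hb'⟩ := ih
          refine ⟨max b (p k v), max_lt hb (lt_of_le_of_ne (p_le_E0 k v) (h1 k)), ?_⟩
          intro n hn
          rcases Finset.mem_range_succ_iff.mp hn |>.lt_or_eq with h | h
          · exact (hb' n (Finset.mem_range.mpr h)).trans (le_max_left _ _)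
          · rw [h]; exact le_max_right _ _
      exact this _
  obtain ⟨b, hb, hb'⟩ := h4
  have h5 : E0.N v ≤ max b c := E0_le fun n => by
    by_cases hn : n < M
    · exact (hb' n (Finset.mem_range.mpr hn)).trans (le_max_left _ _)
    · exact (hM n (not_lt.mp hn)).le.trans (le_max_right _ _)
  exact absurd h5 (not_le.mpr (max_lt hb hc2))

theorem snd_eq_zero {v : V} (h : E0.N v = |v.1|) : v.2 = 0 := by
  apply C0.ext
  intro n
  by_contra h1
  exact absurd ((abs_fst_lt_p h1).trans_le (p_le_E0 n v)) (by rw [h]; exact lt_irrefl _)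

theorem sameRay_of_fst {v w : V} (hv : v.2 = 0) (hw : w.2 = 0) (h : |v.1 + w.1| = |v.1| + |w.1|) :
    SameRay ℝ v w := by
  have h1 : SameRay ℝ v.1 w.1 := by
    rw [sameRay_iff_norm_add]
    exact h
  have h2 : v = LinearMap.inl ℝ ℝ C0 v.1 := Prod.ext rfl hv
  have h3 : w = LinearMap.inl ℝ ℝ C0 w.1 := Prod.ext rfl hw
  rw [h2, h3]
  exact h1.map _

theorem sameRay_of_N {v w : V} (h : E.N (v + w) = E.N v + E.N w) : SameRay ℝ v w := by
  have ha := E0.add_le v w
  have hb := norm_add_le (wgt v.2) (wgt w.2)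
  have hc : wgt (v + w).2 = wgt v.2 + wgt w.2 := map_add wgt v.2 w.2
  rw [E_N, E_N, E_N, hc] at h
  have h0 : E0.N (v + w) = E0.N v + E0.N w := by linarith
  have h1 : ‖wgt v.2 + wgt w.2‖ = ‖wgt v.2‖ + ‖wgt w.2‖ := by linarith
  have h2 : SameRay ℝ v.2 w.2 := by
    rw [← sameRay_iff_norm_add] at h1
    exact (wgt_injective.sameRay_map_iff).mp h1
  have hv := (abs_fst_le_p 0 v).trans (p_le_E0 0 v)
  have hw := (abs_fst_le_p 0 w).trans (p_le_E0 0 w)
  have hf : (v + w).1 = v.1 + w.1 := rfl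
  rcases attained (v + w) with ⟨n, hn⟩ | hlim
  · -- the supremum is attained
    have hpv := p_le_E0 n v
    have hpw := p_le_E0 n w
    have hpvw := p_add n v w
    have e1 : p n v = E0.N v := by linarith
    have e2 : p n w = E0.N w := by linarith
    have e3 : p n (v + w) = p n v + p n w := by linarith
    have g1 := norm_add_le (G n v) (G n w)
    have g2 := abs_add_le (v.2 n) (w.2 n)
    have g3 : (v + w).2 n = v.2 n + w.2 n := rfl
    have g4 : ‖G n v + G n w‖ = ‖G n v‖ + ‖G n w‖ := by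
      unfold p at e3
      rw [map_add, g3] at e3
      linarith
    rw [← sameRay_iff_norm_add] at g4
    -- the same ray condition in the two coordinates
    have key : SameRay ℝ ((v.1, v.2 n) : ℝ × ℝ) (w.1, w.2 n) := by
      let L : ℂ →ₗ[ℝ] ℝ × ℝ :=
        { toFun := fun a => (a.re - a.im / δ n, 2 * a.im / δ n)
          map_add' := fun a b => by
            apply Prod.ext
            · simp; ring
            · simp; ring
          map_smul' := fun c a => by
            apply Prod.ext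
            · simp; ring
            · simp; ring }
      have hL : ∀ v : V, L (G n v) = (v.1, v.2 n) := by
        intro v
        have := (δ_pos n).ne'
        apply Prod.ext
        · change (G n v).re - (G n v).im / δ n = v.1
          rw [G_re, G_im]; field_simp; ring
        · change 2 * (G n v).im / δ n = v.2 n
          rw [G_im]; field_simp
      have := g4.map L
      rwa [hL, hL] at this
    by_cases hzv : v.2 n = 0
    · have e4 : E0.N v = |v.1| := by
        rw [← e1]
        have := p_le' n v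
        rw [hzv, abs_zero, mul_zero, add_zero] at this
        exact le_antisymm this (abs_fst_le_p n v)
      have hv2 := snd_eq_zero e4
      by_cases hv1 : v.1 = 0
      · have : v = 0 := Prod.ext hv1 hv2
        rw [this]; exact SameRay.zero_left _
      · -- then the other coordinate vanishes as well
        have hne : ((v.1, v.2 n) : ℝ × ℝ) ≠ 0 := by
          intro h; exact hv1 (Prod.ext_iff.mp h).1
        obtain ⟨r, hr, hr'⟩ := key.exists_nonneg_left hne
        have h5 : w.2 n = 0 := by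
          have := (Prod.ext_iff.mp hr').2
          simp only [Prod.smul_mk, smul_eq_mul] at this
          rw [← this, hzv, mul_zero]
        have e5 : E0.N w = |w.1| := by
          rw [← e2]
          have := p_le' n w
          rw [h5, abs_zero, mul_zero, add_zero] at this
          exact le_antisymm this (abs_fst_le_p n w)
        have hw2 := snd_eq_zero e5
        apply sameRay_of_fst hv2 hw2
        have h6 : w.1 = r * v.1 := by
          have := (Prod.ext_iff.mp hr').1
          simp only [Prod.smul_mk, smul_eq_mul] at this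
          exact this.symm
        rw [h6]
        have h7 : v.1 + r * v.1 = (1 + r) * v.1 := by ring
        rw [h7, abs_mul, abs_mul, abs_of_nonneg hr, abs_of_nonneg (by linarith : (0:ℝ) ≤ 1 + r)]
        ring
    · -- a nonzero coordinate
      have hne : v.2 ≠ 0 := by
        intro h; apply hzv; rw [h]; rfl
      obtain ⟨s, hs, hs'⟩ := h2.exists_nonneg_left hne
      have hne' : ((v.1, v.2 n) : ℝ × ℝ) ≠ 0 := by
        intro h; exact hzv (Prod.ext_iff.mp h).2
      obtain ⟨r, hr, hr'⟩ := key.exists_nonneg_left hne'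
      have h5 := (Prod.ext_iff.mp hr').2
      have h6 := (Prod.ext_iff.mp hr').1
      simp only [Prod.smul_mk, smul_eq_mul] at h5 h6
      have h7 : s * v.2 n = w.2 n := by rw [← hs']; rfl
      have h8 : r = s := mul_right_cancel₀ hzv (h5.trans h7.symm)
      have h9 : w = s • v := Prod.ext (by rw [← h6, h8]; rfl) (by rw [← hs']; rfl)
      rw [h9]
      exact SameRay.sameRay_nonneg_smul_right v hs
  · have e1 := abs_add_le v.1 w.1
    rw [hf] at hlim
    have e2 : E0.N v = |v.1| := by linarith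
    have e3 : E0.N w = |w.1| := by linarith
    exact sameRay_of_fst (snd_eq_zero e2) (snd_eq_zero e3) (by linarith)

/-- The Banach space of the example. -/
abbrev X := E.Space

theorem strictly_convex (x y : X) (hx : ‖x‖ = 1) (hy : ‖y‖ = 1) (hxy : ‖x + y‖ = 2) :
    x = y := by
  have h1 : SameRay ℝ (E.toSpace.symm x) (E.toSpace.symm y) := by
    apply sameRay_of_N
    have h2 : E.N (E.toSpace.symm x) = 1 := hx
    have h3 : E.N (E.toSpace.symm y) = 1 := hy
    have h4 : E.N (E.toSpace.symm x + E.toSpace.symm y) = 2 := hxy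
    rw [h2, h3, h4]
    norm_num
  have h2 : SameRay ℝ x y := h1.map E.toSpace.toLinearMap
  have hx0 : x ≠ 0 := by
    intro h; rw [h, norm_zero] at hx; exact zero_ne_one hx
  obtain ⟨r, hr, hr'⟩ := h2.exists_nonneg_left hx0
  have h3 : ‖r • x‖ = 1 := by rw [hr', hy]
  rw [norm_smul, hx, mul_one, Real.norm_eq_abs, abs_of_nonneg hr] at h3
  rw [← hr', h3, one_smul]

/-- The unit vectors of the second summand. -/
noncomputable def u (n : ℕ) : X := E.toSpace ((0 : ℝ), C0.e n)

theorem u_null (f : X →L[ℝ] ℝ) : Tendsto (fun n => f (u n)) atTop (𝓝 0) := by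
  apply tendsto_zero_of_signed_sums (C := 5)
  intro F ε hε
  have h1 : ∑ n ∈ F, ε n • u n = E.toSpace ((0 : ℝ), ∑ n ∈ F, ε n • C0.e n) := by
    have h2 : ((0 : ℝ), ∑ n ∈ F, ε n • C0.e n) = ∑ n ∈ F, ε n • (((0 : ℝ), C0.e n) : V) := by
      apply Prod.ext
      · rw [Prod.fst_sum]; simp
      · rw [Prod.snd_sum]; simp
    rw [h2, map_sum]
    rfl
  rw [h1, EqNorm.norm_toSpace]
  have h3 : ‖((0 : ℝ), ∑ n ∈ F, ε n • C0.e n)‖ ≤ 1 := by
    rw [Prod.norm_def]
    apply max_le
    · simp
    · rw [C0.norm_le_iff zero_le_one]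
      intro i
      rw [C0.sum_smul_e_apply]
      split_ifs
      · exact hε i
      · simp
  have h4 := E.ge ((0 : ℝ), ∑ n ∈ F, ε n • C0.e n)
  have h5 : E.D = 5 := rfl
  rw [h5] at h4
  linarith

/-- The modified vectors. -/
noncomputable def mod (v : V) (n : ℕ) : V :=
  (v.1, v.2 + (-(1 - ‖wgt v.2‖) - v.1 - v.2 n) • C0.e n)

theorem mod_snd_self (v : V) (n : ℕ) : (mod v n).2 n = -(1 - ‖wgt v.2‖) - v.1 := by
  change (v.2 + (-(1 - ‖wgt v.2‖) - v.1 - v.2 n) • C0.e n) n = _
  rw [C0.add_apply, C0.smul_apply, C0.e_apply, if_pos rfl]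
  ring

theorem mod_snd_ne (v : V) {n k : ℕ} (h : k ≠ n) : (mod v n).2 k = v.2 k := by
  change (v.2 + (-(1 - ‖wgt v.2‖) - v.1 - v.2 n) • C0.e n) k = _
  rw [C0.add_apply, C0.smul_apply, C0.e_apply, if_neg h]
  ring

theorem wgt_mod (v : V) (n : ℕ) :
    wgt (mod v n).2 = wgt v.2 + (-(1 - ‖wgt v.2‖) - v.1 - v.2 n) • wgt (C0.e n) := by
  change wgt (v.2 + (-(1 - ‖wgt v.2‖) - v.1 - v.2 n) • C0.e n) = _
  rw [map_add, map_smul]

theorem mod_estimates {v : V} (hv : E.N v ≤ 1) (n : ℕ) :
    |-(1 - ‖wgt v.2‖) - v.1 - v.2 n| ≤ 2 ∧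
    E.N (mod v n) ≤ 1 + (δ n + 2 * (1 / 2 : ℝ) ^ n) ∧
    2 - 2 * (1 / 2 : ℝ) ^ n ≤ E.N (((1 : ℝ), (0 : C0)) - mod v n) := by
  rw [E_N] at hv
  set h := ‖wgt v.2‖ with hh
  have hh0 : 0 ≤ h := norm_nonneg _
  have hR : E0.N v ≤ 1 - h := by linarith
  have hR0 : 0 ≤ E0.N v := E0.N_nonneg v
  have h1 : |v.1| ≤ 1 - h := ((abs_fst_le_p n v).trans (p_le_E0 n v)).trans hR
  have h2 : |v.1 + v.2 n| ≤ 1 - h := ((abs_add_le_p n v).trans (p_le_E0 n v)).trans hR
  have hc : |-(1 - h) - v.1 - v.2 n| ≤ 2 := by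
    rw [abs_le] at h2 ⊢
    constructor <;> linarith [h2.1, h2.2]
  have hw : ‖(-(1 - h) - v.1 - v.2 n) • wgt (C0.e n)‖ ≤ 2 * (1 / 2 : ℝ) ^ n := by
    rw [norm_smul, norm_wgt_e, Real.norm_eq_abs]
    exact mul_le_mul_of_nonneg_right hc (by positivity)
  have hself : (mod v n).2 n = -(1 - h) - v.1 := mod_snd_self v n
  have hfst : (mod v n).1 = v.1 := rfl
  refine ⟨hc, ?_, ?_⟩
  · have h3 : E0.N (mod v n) ≤ (1 - h) + δ n := by
      apply E0_le
      intro k
      by_cases hk : k = n
      · subst hk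
        refine (p_le k _).trans ?_
        rw [hself, hfst]
        have h4 := half_le v.1 (-(1 - h) - v.1) (1 - h) h1 (by
          have : v.1 + (-(1 - h) - v.1) = -(1 - h) := by ring
          rw [this, abs_neg, abs_of_nonneg (by linarith)])
        have h5 : |-(1 - h) - v.1| ≤ 2 := by
          rw [abs_le] at h1 ⊢
          constructor <;> linarith [h1.1, h1.2]
        have h6 := mul_le_mul_of_nonneg_left h5 (δ_pos k).le
        linarith
      · have h4 : p k (mod v n) = p k v := by
          unfold p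
          have h5 : G k (mod v n) = G k v := by
            apply Complex.ext
            · rw [G_re, G_re, mod_snd_ne v hk, hfst]
            · rw [G_im, G_im, mod_snd_ne v hk]
          rw [h5, mod_snd_ne v hk]
        rw [h4]
        have := δ_pos n
        exact ((p_le_E0 k v).trans hR).trans (by linarith)
    have h4 : ‖wgt (mod v n).2‖ ≤ h + 2 * (1 / 2 : ℝ) ^ n := by
      rw [wgt_mod]
      exact (norm_add_le _ _).trans (add_le_add hh.symm.le hw)
    rw [E_N]
    linarith
  · rw [E_N]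
    have h3 : 2 - h ≤ E0.N (((1 : ℝ), (0 : C0)) - mod v n) := by
      refine le_trans ?_ ((abs_add_le_p n _).trans (p_le_E0 n _))
      have h4 : (((1 : ℝ), (0 : C0)) - mod v n).1 + (((1 : ℝ), (0 : C0)) - mod v n).2 n
          = 2 - h := by
        have h5 : (((1 : ℝ), (0 : C0)) - mod v n).1 = 1 - v.1 := rfl
        have h6 : (((1 : ℝ), (0 : C0)) - mod v n).2 n = -(mod v n).2 n := by
          change ((0 : C0) - (mod v n).2) n = _
          rw [C0.sub_apply, C0.zero_apply]; ring
        rw [h5, h6, hself]; ring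
      rw [h4]
      exact le_abs_self _
    have h4 : h - 2 * (1 / 2 : ℝ) ^ n ≤ ‖wgt (((1 : ℝ), (0 : C0)) - mod v n).2‖ := by
      have h5 : wgt (((1 : ℝ), (0 : C0)) - mod v n).2 = -wgt (mod v n).2 := by
        change wgt ((0 : C0) - (mod v n).2) = _
        rw [zero_sub, map_neg]
      rw [h5, norm_neg, wgt_mod]
      have h6 := norm_sub_le (wgt v.2 + (-(1 - h) - v.1 - v.2 n) • wgt (C0.e n))
        ((-(1 - h) - v.1 - v.2 n) • wgt (C0.e n))
      rw [add_sub_cancel_right, ← hh] at h6
      linarith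
    linarith

theorem daugavet_point : IsDaugavetPoint (E.toSpace ((1 : ℝ), (0 : C0))) := by
  constructor
  · rw [EqNorm.norm_toSpace, E_N]
    have h1 : wgt ((1 : ℝ), (0 : C0)).2 = 0 := map_zero wgt
    rw [h1, norm_zero, add_zero]
    apply le_antisymm
    · apply E0_le
      intro n
      refine (p_le n _).trans ?_
      change |(0 : C0) n| / 2 + |1 + (0 : C0) n / 2| + δ n * |(0 : C0) n| / 2 ≤ 1
      rw [C0.zero_apply]
      simp
    · have := (abs_fst_le_p 0 ((1 : ℝ), (0 : C0))).trans (p_le_E0 0 _)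
      simpa using this
  · intro f hf α hα ε hε
    -- a point of the slice
    obtain ⟨y, hy1, hy2⟩ : ∃ y : X, ‖y‖ ≤ 1 ∧ 1 - α < f y := by
      obtain ⟨y, hy1, hy2⟩ := f.exists_lt_apply_of_lt_opNorm (r := 1 - α) (by rw [hf]; linarith)
      rcases le_total 0 (f y) with h | h
      · exact ⟨y, hy1.le, by rwa [Real.norm_eq_abs, abs_of_nonneg h] at hy2⟩
      · exact ⟨-y, by rw [norm_neg]; exact hy1.le, by
          rw [map_neg]; rwa [Real.norm_eq_abs, abs_of_nonpos h] at hy2⟩
    set v : V := E.toSpace.symm y with hv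
    have hv1 : E.N v ≤ 1 := hy1
    -- the errors tend to zero
    set η : ℕ → ℝ := fun n => δ n + 2 * (1 / 2 : ℝ) ^ n with hη
    have hη0 : ∀ n, 0 ≤ η n := fun n => by
      have := δ_pos n
      have : (0 : ℝ) ≤ 2 * (1 / 2 : ℝ) ^ n := by positivity
      rw [hη]; dsimp only; linarith
    have hηt : Tendsto η atTop (𝓝 0) := by
      have h1 : Tendsto δ atTop (𝓝 0) := tendsto_one_div_add_atTop_nhds_zero_nat
      have h2 : Tendsto (fun n : ℕ => 2 * (1 / 2 : ℝ) ^ n) atTop (𝓝 (2 * 0)) :=
        (tendsto_pow_atTop_nhds_zero_of_lt_one (by norm_num) (by norm_num)).const_mul 2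
      have := h1.add h2
      rw [mul_zero, add_zero] at this
      exact this
    have hfy : Tendsto (fun n => f (E.toSpace (mod v n))) atTop (𝓝 (f y)) := by
      have h1 : ∀ n, E.toSpace (mod v n) = y + (-(1 - ‖wgt v.2‖) - v.1 - v.2 n) • u n := by
        intro n
        have h2 : mod v n = v + (-(1 - ‖wgt v.2‖) - v.1 - v.2 n) • (((0 : ℝ), C0.e n) : V) := by
          apply Prod.ext
          · change v.1 = v.1 + (-(1 - ‖wgt v.2‖) - v.1 - v.2 n) * 0
            ring
          · rfl
        rw [h2, map_add, map_smul]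
        rfl
      have h2 : Tendsto (fun n => (-(1 - ‖wgt v.2‖) - v.1 - v.2 n) * f (u n)) atTop (𝓝 0) := by
        rw [tendsto_zero_iff_abs_tendsto_zero]
        have h3 : Tendsto (fun n => 2 * |f (u n)|) atTop (𝓝 (2 * |(0 : ℝ)|)) :=
          (u_null f).abs.const_mul 2
        rw [abs_zero, mul_zero] at h3
        refine squeeze_zero (fun n => abs_nonneg _) (fun n => ?_) h3
        rw [Function.comp_apply, abs_mul]
        exact mul_le_mul_of_nonneg_right (mod_estimates hv1 n).1 (abs_nonneg _)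
      have h3 := h2.const_add (f y)
      rw [add_zero] at h3
      refine h3.congr fun n => ?_
      rw [h1, map_add, map_smul, smul_eq_mul]
    have hinv : Tendsto (fun n => (1 + η n)⁻¹) atTop (𝓝 1) := by
      have := (hηt.const_add 1).inv₀ (by norm_num)
      simpa using this
    have hfy' : Tendsto (fun n => (1 + η n)⁻¹ * f (E.toSpace (mod v n))) atTop (𝓝 (f y)) := by
      have := hinv.mul hfy
      rwa [one_mul] at this
    have e1 : ∀ᶠ n in atTop, 1 - α < (1 + η n)⁻¹ * f (E.toSpace (mod v n)) :=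
      (tendsto_order.mp hfy').1 _ hy2
    have e2 : ∀ᶠ n in atTop, η n < ε / 2 := (tendsto_order.mp hηt).2 _ (by positivity)
    obtain ⟨n, hn1, hn2⟩ := (e1.and e2).exists
    obtain ⟨-, m1, m2⟩ := mod_estimates hv1 n
    have hpos : 0 < 1 + η n := by linarith [hη0 n]
    refine ⟨(1 + η n)⁻¹ • E.toSpace (mod v n), ?_, ?_, ?_⟩
    · rw [norm_smul, EqNorm.norm_toSpace, norm_inv, Real.norm_eq_abs, abs_of_pos hpos,
        inv_mul_le_iff₀ hpos, mul_one]
      exact m1
    · rw [map_smul, smul_eq_mul]; exact hn1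
    · have h1 : E.toSpace ((1 : ℝ), (0 : C0)) - (1 + η n)⁻¹ • E.toSpace (mod v n) =
          E.toSpace (((1 : ℝ), (0 : C0)) - mod v n) +
            (1 - (1 + η n)⁻¹) • E.toSpace (mod v n) := by
        rw [map_sub, sub_smul, one_smul]
        abel
      have h2 : ‖(1 - (1 + η n)⁻¹) • E.toSpace (mod v n)‖ ≤ η n := by
        have h3 : 1 - (1 + η n)⁻¹ = η n / (1 + η n) := by field_simp; ring
        rw [norm_smul, EqNorm.norm_toSpace, h3, Real.norm_eq_abs,
          abs_of_nonneg (div_nonneg (hη0 n) hpos.le), div_mul_eq_mul_div, div_le_iff₀ hpos]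
        exact mul_le_mul_of_nonneg_left m1 (hη0 n)
      have h3 : ‖E.toSpace (((1 : ℝ), (0 : C0)) - mod v n)‖ =
          E.N (((1 : ℝ), (0 : C0)) - mod v n) := rfl
      have h4 := norm_sub_le (E.toSpace (((1 : ℝ), (0 : C0)) - mod v n) +
            (1 - (1 + η n)⁻¹) • E.toSpace (mod v n)) ((1 - (1 + η n)⁻¹) • E.toSpace (mod v n))
      rw [add_sub_cancel_right, h3] at h4
      rw [h1]
      have h5 : 2 * (1 / 2 : ℝ) ^ n ≤ η n := by
        have := δ_pos n
        rw [hη]; dsimp only; linarith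
      linarith

/-- There are a strictly convex real Banach space `X` and a point of its unit sphere which is a
Daugavet point. -/
theorem result : ∃ (X : Type) (_ : NormedAddCommGroup X) (_ : NormedSpace ℝ X),
    CompleteSpace X ∧
    (∀ x y : X, ‖x‖ = 1 → ‖y‖ = 1 → ‖x + y‖ = 2 → x = y) ∧
    ∃ x : X, IsDaugavetPoint x :=
  ⟨X, inferInstance, inferInstance, inferInstance, strictly_convex, _, daugavet_point⟩

end Pool.Agent.Results.MP_7c844e_an.StrictlyConvexDaugavetPoint
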